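import Pool.Agent.Lib.MP_5349a4_pr.M.Iface1
import Pool.Agent.Lib.MP_5349a4_pr.M.Base

/-!
# Module PAIR (inequality (2.3) of Paper.md)
-/

set_option autoImplicit false
open MeasureTheory Set
open scoped ENNReal NNReal

namespace Pool.Agent.Lib.MP_5349a4_pr.H68

section Tools

variable {E : Type} [MeasurableSpace E]

/-- `Hs` is measurable in the starting point and the configuration. -/
theorem meas_hs [StandardBorelSpace E] (hC : ConMStatement) {adj : E → E → Prop} (ha : MAdj adj)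
    {s : E → Prop} (hs : MeasurableSet {a | s a}) :
    MeasurableSet {q : E × Cfg E | Hs adj s (pt q.2) q.1} := by
  have h := (hC E adj ha).2.1 (fun _ => s) (measurable_snd hs)
  have h2 : Measurable fun q : E × Cfg E => (q.1, q.1, q.2) :=
    measurable_fst.prodMk (measurable_fst.prodMk measurable_snd)
  exact h2 h

theorem meas_hs_fix [StandardBorelSpace E] (hC : ConMStatement) {adj : E → E → Prop}
    (ha : MAdj adj) {s : E → Prop} (hs : MeasurableSet {a | s a}) (x : E) :
    MeasurableSet {ω : Cfg E | Hs adj s (pt ω) x} :=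
  measurable_prodMk_left (x := x) (meas_hs hC ha hs)

/-- `Con` from a fixed point is measurable in the target and the configuration. -/
theorem meas_con [StandardBorelSpace E] (hC : ConMStatement) {adj : E → E → Prop} (ha : MAdj adj)
    (x : E) : MeasurableSet {q : E × Cfg E | Con adj (pt q.2) x q.1} := by
  have h := (hC E adj ha).1
  exact measurable_prodMk_left (x := x) h

theorem meas_con_fix [StandardBorelSpace E] (hC : ConMStatement) {adj : E → E → Prop}
    (ha : MAdj adj) (x y : E) : MeasurableSet {ω : Cfg E | Con adj (pt ω) x y} :=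
  measurable_prodMk_left (x := y) (meas_con hC ha x)

theorem meas_hp [StandardBorelSpace E] (hC : ConMStatement) (hP : ProbStatement)
    {adj : E → E → Prop} (ha : MAdj adj)
    {s : E → Prop} (hs : MeasurableSet {a | s a}) (ρ : Measure E) [IsFiniteMeasure ρ] :
    Measurable fun b => hp adj ρ s b := by
  have : IsProbabilityMeasure (PL ρ) := (hP E ρ).1
  exact measurable_measure_prodMk_left (meas_hs hC ha hs)

theorem meas_tp [StandardBorelSpace E] (hC : ConMStatement) {adj : E → E → Prop} (ha : MAdj adj)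
    (ρ : Measure E) [IsFiniteMeasure ρ] : Measurable fun q : E × E => tp adj ρ q.1 q.2 :=
  (hC E adj ha).2.2.1 ρ

end Tools

theorem con_iff (hB : ClbStatement) {E : Type} (adj : E → E → Prop) (P : Set E) (x p : E) :
    Con adj P x p ↔ (adj x p ∨ ∃ a ∈ clus adj P x, adj a p) := by
  have h2 := (hB E adj P P x p).2.1
  constructor
  · rintro ⟨a, ha, hap⟩
    by_cases hax : a = x
    · left; rwa [hax] at hap
    · exact Or.inr ⟨a, h2.1 ⟨ha, hax⟩, hap⟩
  · rintro (h | ⟨a, ha, hap⟩)
    · exact ⟨x, Relation.ReflTransGen.refl, h⟩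
    · exact ⟨a, h2.2 ha, hap⟩

theorem meas_ex_adj {E : Type} [MeasurableSpace E] {adj : E → E → Prop} (ha : MAdj adj) (p : E) :
    MeasurableSet {ω : Cfg E | ∃ a ∈ pt ω, adj a p} := by
  refine measurableSet_cfg.2 fun k => ?_
  have h1 : MeasurableSet {a : E | adj a p} := measurable_prodMk_right (y := p) ha
  have h2 : {x : Fin k → E | (⟨k, x⟩ : Cfg E) ∈ {ω : Cfg E | ∃ a ∈ pt ω, adj a p}}
      = ⋃ i : Fin k, (fun x : Fin k → E => x i) ⁻¹' {a : E | adj a p} := by
    ext x
    simp only [mem_ofPred_eq, mem_iUnion, mem_preimage, mem_pt]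
    constructor
    · rintro ⟨a, ⟨i, rfl⟩, h⟩
      exact ⟨i, h⟩
    · rintro ⟨i, h⟩
      exact ⟨_, ⟨i, rfl⟩, h⟩
  rw [h2]
  exact MeasurableSet.iUnion fun i => measurable_pi_apply i h1

theorem hs_fresh {E : Type} (adj : E → E → Prop) (s : E → Prop) (P : Set E) (x p : E)
    (h1 : ¬ Hs adj s P x) (h2 : Hs adj s P p) :
    Hs adj s {e | e ∈ P ∧ ¬ Con adj P x e} p := by
  obtain ⟨a, ha, hsa⟩ := h2
  refine ⟨a, ?_, hsa⟩
  unfold cl at ha ⊢
  simp only [mem_ofPred_eq] at ha ⊢
  refine Relation.ReflTransGen.head_induction_on ha Relation.ReflTransGen.refl ?_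
  intro b c hbc hca ih
  refine Relation.ReflTransGen.head ⟨hbc.1, hbc.2, ?_⟩ ih
  rintro ⟨a', ha', hac⟩
  exact h1 ⟨a, (Relation.ReflTransGen.tail ha' ⟨hac, hbc.2⟩).trans hca, hsa⟩

/-- Exploration bound: `P(x ~ p, not H_s(x), H_s(p)) ≤ τ(x,p) P(H_s(p))`. -/
theorem expl_bound (hE : ExplStatement) (hB : ClbStatement) (hC : ConMStatement)
    {E : Type} [MeasurableSpace E] [StandardBorelSpace E] (ρ : Measure E) [IsFiniteMeasure ρ]
    [NullSingletonClass ρ] (adj : E → E → Prop) (s : E → Prop) (x p : E) (ha : MAdj adj)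
    (hs : MeasurableSet {a | s a}) :
    PL ρ {ω | Con adj (pt ω) x p ∧ ¬ Hs adj s (pt ω) x ∧ Hs adj s (pt ω) p}
      ≤ tp adj ρ x p * hp adj ρ s p := by
  have hmH : ∀ y : E, MeasurableSet {ω : Cfg E | Hs adj s (pt ω) y} := meas_hs_fix hC ha hs
  have hmC : MeasurableSet {ω : Cfg E | Con adj (pt ω) x p} := meas_con_fix hC ha x p
  set f : Set E → Set E → ℝ≥0∞ := fun C D =>
    ind ((adj x p ∨ ∃ a ∈ C, adj a p) ∧ Hs adj s D p) with hf
  have hfm : Measurable (fun q : Cfg E × Cfg E => f (pt q.1) (pt q.2)) := by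
    refine measurable_ind ?_
    refine MeasurableSet.inter (MeasurableSet.union (MeasurableSet.const _) ?_) ?_
    · exact measurable_fst (meas_ex_adj ha p)
    · exact measurable_snd (hmH p)
  have h1 := hE E ρ adj x f ha hfm
  have h0 : MeasurableSet {ω : Cfg E | Con adj (pt ω) x p ∧ ¬ Hs adj s (pt ω) x ∧ Hs adj s (pt ω) p} :=
    hmC.inter ((hmH x).compl.inter (hmH p))
  calc PL ρ {ω | Con adj (pt ω) x p ∧ ¬ Hs adj s (pt ω) x ∧ Hs adj s (pt ω) p}
      = ∫⁻ ω, ind (Con adj (pt ω) x p ∧ ¬ Hs adj s (pt ω) x ∧ Hs adj s (pt ω) p) ∂PL ρ :=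
        (lintegral_ind h0).symm
    _ ≤ ∫⁻ ω, f (clus adj (pt ω) x) {e | e ∈ pt ω ∧ ¬ Con adj (pt ω) x e} ∂PL ρ := by
        refine lintegral_mono fun ω => ind_mono ?_
        rintro ⟨hc, hn, hh⟩
        exact ⟨(con_iff hB adj _ x p).1 hc, hs_fresh adj s _ x p hn hh⟩
    _ = ∫⁻ ω, ∫⁻ ω', f (clus adj (pt ω) x) {e | e ∈ pt ω' ∧ ¬ Con adj (pt ω) x e} ∂PL ρ ∂PL ρ := h1
    _ ≤ ∫⁻ ω, ∫⁻ ω', ind (Con adj (pt ω) x p) * ind (Hs adj s (pt ω') p) ∂PL ρ ∂PL ρ := by
        refine lintegral_mono fun ω => lintegral_mono fun ω' => ?_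
        rw [← ind_and]
        refine ind_mono ?_
        rintro ⟨hc, a, haa, hsa⟩
        refine ⟨(con_iff hB adj _ x p).2 hc, a, ?_, hsa⟩
        exact (hB E adj _ (pt ω') p p).1 (fun e he => he.1) haa
    _ = tp adj ρ x p * hp adj ρ s p := by
        simp only [lintegral_const_mul _ (measurable_ind (hmH p)), lintegral_ind (hmH p)]
        rw [lintegral_mul_const _ (measurable_ind hmC), lintegral_ind hmC]
        rfl

theorem meas_left {E : Type} [MeasurableSpace E] (F : E → E → ℝ≥0∞)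
    (hF : Measurable fun q : E × E => F q.1 q.2) (b : E) : Measurable fun p => F b p :=
  hF.comp measurable_prodMk_left

theorem meas_swap {E : Type} [MeasurableSpace E] (F : E → E → ℝ≥0∞)
    (hF : Measurable fun q : E × E => F q.1 q.2) : Measurable fun q : E × E => F q.2 q.1 :=
  hF.comp measurable_swap

/-- The final computation of (2.3) with abstract functions. -/
theorem final_calc {E : Type} [MeasurableSpace E] (ρ : Measure E) [IsFiniteMeasure ρ]
    (T : E → E → ℝ≥0∞) (h G : E → ℝ≥0∞) (X : ℝ≥0∞) (x : E)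
    (hT : Measurable fun q : E × E => T q.1 q.2) (hh : Measurable h)
    (hX : ∀ b, 1 + ∫⁻ y, T b y ∂ρ ≤ X)
    (hpt : ∀ p, G p ≤ (h x * T x p + ∫⁻ b, T x b * (h b * T b p) ∂ρ) + T x p * h p) :
    h x + ∫⁻ p, G p ∂ρ ≤ X * (h x + ∫⁻ b, T x b * h b ∂ρ) := by
  have hTl := meas_left T hT
  have hTs := meas_swap T hT
  have hswap : ∫⁻ p, ∫⁻ b, T x b * (h b * T b p) ∂ρ ∂ρ
      = ∫⁻ b, T x b * h b * ∫⁻ p, T b p ∂ρ ∂ρ := by
    rw [lintegral_lintegral_swap]
    · refine lintegral_congr fun b => ?_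
      rw [← lintegral_const_mul _ (hTl b)]
      refine lintegral_congr fun p => ?_
      rw [mul_assoc]
    · refine Measurable.aemeasurable ?_
      refine Measurable.mul ((hTl x).comp measurable_snd) ?_
      exact (hh.comp measurable_snd).mul hTs
  have hmtph : Measurable fun b => T x b * h b := (hTl x).mul hh
  calc h x + ∫⁻ p, G p ∂ρ
      ≤ h x + ∫⁻ p, ((h x * T x p
          + ∫⁻ b, T x b * (h b * T b p) ∂ρ)
        + T x p * h p) ∂ρ := by
        gcongr with p
        exact hpt p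
    _ = h x * (1 + ∫⁻ p, T x p ∂ρ)
        + ∫⁻ b, (T x b * h b) * (1 + ∫⁻ p, T b p ∂ρ) ∂ρ := by
        rw [lintegral_add_right _ hmtph, lintegral_add_left ((hTl x).const_mul _), hswap,
          lintegral_const_mul _ (hTl x)]
        simp only [mul_add, mul_one]
        rw [lintegral_add_left hmtph]
        ring
    _ ≤ h x * X + ∫⁻ b, (T x b * h b) * X ∂ρ := by
        gcongr with b
        · exact hX x
        · exact hX b
    _ = X * (h x + ∫⁻ b, T x b * h b ∂ρ) := by
        rw [lintegral_mul_const _ hmtph]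
        ring

theorem pair (hT : TgStatement) (hE : ExplStatement) (hM : MeckeStatement) (hB : ClbStatement)
    (hC : ConMStatement) (hP : ProbStatement) : PairStatement := by
  intro E _ _ ρ _ _ adj s X x ha hs hX
  have : IsProbabilityMeasure (PL ρ) := (hP E ρ).1
  have hmH2 := meas_hs hC ha hs
  have hmH : ∀ y : E, MeasurableSet {ω : Cfg E | Hs adj s (pt ω) y} := meas_hs_fix hC ha hs
  have hmC2 := meas_con (E := E) hC ha x
  have hmhp := meas_hp hC hP ha hs ρ
  have hmtp := meas_tp hC ha ρ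
  -- the second term through Mecke
  obtain ⟨g, hg⟩ : ∃ g : E → Set E → ℝ≥0∞, g = fun p P => ind (Hs adj s P x) * ind (Con adj P x p) :=
    ⟨_, rfl⟩
  have hgm : Measurable (fun q : E × Cfg E => g q.1 (pt q.2)) := by
    rw [hg]
    refine Measurable.mul ?_ (measurable_ind hmC2)
    exact measurable_ind (measurable_snd (hmH x))
  have hMk := (hM E ρ g hgm).1
  have e1 : hp adj ρ s x = ∫⁻ ω, ind (Hs adj s (pt ω) x) ∂PL ρ := (lintegral_ind (hmH x)).symm
  have hsplit : ∫⁻ ω, ind (Hs adj s (pt ω) x) * (1 + cnt adj (pt ω) x) ∂PL ρ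
      = hp adj ρ s x + ∫⁻ p, ∫⁻ ω, g p (insert p (pt ω)) ∂PL ρ ∂ρ := by
    rw [← hMk, e1, ← lintegral_add_left (measurable_ind (hmH x))]
    refine lintegral_congr fun ω => ?_
    rw [mul_add, mul_one]
    congr 1
    rw [cnt, ← ENNReal.tsum_mul_left, hg]
  rw [hsplit]
  -- pointwise bound
  have hpt : ∀ p, ∫⁻ ω, g p (insert p (pt ω)) ∂PL ρ
      ≤ (hp adj ρ s x * tp adj ρ x p + ∫⁻ b, tp adj ρ x b * (hp adj ρ s b * tp adj ρ b p) ∂ρ)
        + tp adj ρ x p * hp adj ρ s p := by
    intro p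
    have hmt : MeasurableSet {a : E | adj a p} := measurable_prodMk_right (y := p) ha
    have hmcp : MeasurableSet {ω : Cfg E | Con adj (pt ω) x p} := meas_con_fix hC ha x p
    have t1 := hT E ρ adj s (fun a => adj a p) x ha hs hmt
    have t2 := expl_bound hE hB hC ρ adj s x p ha hs
    calc ∫⁻ ω, g p (insert p (pt ω)) ∂PL ρ
        ≤ ∫⁻ ω, (ind (Hs adj s (pt ω) x ∧ Hs adj (fun a => adj a p) (pt ω) x)
            + ind (Con adj (pt ω) x p ∧ ¬ Hs adj s (pt ω) x ∧ Hs adj s (pt ω) p)) ∂PL ρ := by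
          refine lintegral_mono fun ω => ?_
          have h3 := (hB E adj (pt ω) (pt ω) x p).2.2.1
          have h6 := (hB E adj (pt ω) (pt ω) x p).2.2.2.2.2 s
          rw [hg]
          simp only
          rw [← ind_and]
          by_cases hh : Hs adj s (pt ω) x
          · refine le_trans (ind_mono ?_) le_self_add
            rintro ⟨_, hc⟩
            exact ⟨hh, h3.1 hc⟩
          · refine le_trans (ind_mono ?_) le_add_self
            rintro ⟨h, hc⟩
            rcases h6 h with h | h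
            · exact absurd h hh
            · exact ⟨h.1, hh, h.2⟩
      _ = PL ρ {ω | Hs adj s (pt ω) x ∧ Hs adj (fun a => adj a p) (pt ω) x}
          + PL ρ {ω | Con adj (pt ω) x p ∧ ¬ Hs adj s (pt ω) x ∧ Hs adj s (pt ω) p} := by
          have m1 : MeasurableSet {ω : Cfg E | Hs adj s (pt ω) x ∧ Hs adj (fun a => adj a p) (pt ω) x} :=
            (hmH x).inter hmcp
          have m2 : MeasurableSet {ω : Cfg E | Con adj (pt ω) x p ∧ ¬ Hs adj s (pt ω) x ∧
              Hs adj s (pt ω) p} := hmcp.inter ((hmH x).compl.inter (hmH p))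
          rw [lintegral_add_left (measurable_ind m1), lintegral_ind m1, lintegral_ind m2]
      _ ≤ _ := add_le_add t1 t2
  exact final_calc ρ (tp adj ρ) (hp adj ρ s) (fun p => ∫⁻ ω, g p (insert p (pt ω)) ∂PL ρ) X x
    hmtp hmhp hX hpt

end Pool.Agent.Lib.MP_5349a4_pr.H68
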